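import Mathlib

/-!
# MP_0a3467_an, Q2: the answer is negative for every `ℓ ≥ 2`

We build two multiplicative actions `S`, `R` on an atomless Lebesgue probability space, conjugate
to each other by a measure preserving involution, and a set `A` of positive measure such that
`S_k⁻¹ A ∩ R_l⁻¹ A = ∅` as soon as `k ≥ 16` and `k < l < 2k`.  With `k = m + n`, `l = m + 2n` this
kills the averages of Q2.

The actions come from the suspension flow of a Bernoulli shift, run at time `log₁₆ n`.
-/

open MeasureTheory Filter Topology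

namespace Pool.Agent.Results.MP_0a3467_an.NonCommutingFailure

/-- A multiplicative action by invertible measure preserving maps (only `T n`, `n ≥ 1`, matter). -/
structure IsMultAction {X : Type} [MeasurableSpace X] (μ : Measure X) (T : ℕ → X ≃ᵐ X) : Prop where
  one : ∀ x, T 1 x = x
  mul : ∀ m n : ℕ, 1 ≤ m → 1 ≤ n → ∀ x, T (m * n) x = T m (T n x)
  mp : ∀ n : ℕ, 1 ≤ n → MeasurePreserving (T n) μ μ

/-- The set `⋂_{j=0}^{ℓ} T_{j,m+jn}⁻¹ A`. -/
def pattern {X : Type} [MeasurableSpace X] (ℓ : ℕ) (T : ℕ → ℕ → X ≃ᵐ X) (A : Set X)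
    (m n : ℕ) : Set X :=
  ⋂ j ∈ Finset.range (ℓ + 1), (T j (m + j * n)) ⁻¹' A

/-- The average `𝔼_{m,n∈[N]} μ(⋂_{j=0}^{ℓ} T_{j,m+jn}⁻¹ A)`. -/
noncomputable def avg {X : Type} [MeasurableSpace X] (μ : Measure X) (ℓ : ℕ)
    (T : ℕ → ℕ → X ≃ᵐ X) (A : Set X) (N : ℕ) : ℝ :=
  (∑ m ∈ Finset.Icc 1 N, ∑ n ∈ Finset.Icc 1 N, μ.real (pattern ℓ T A m n)) / (N : ℝ) ^ 2

/-! ## The suspension flow -/

/-- labels -/
abbrev Y : Type := ℤ → Bool

/-- phase and labels -/
abbrev X : Type := UnitAddCircle × Y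

/-- The representative in `[0,1)`. -/
noncomputable def rep (θ : UnitAddCircle) : ℝ := (AddCircle.measurableEquivIco (1:ℝ) 0 θ : ℝ)

lemma measurable_rep : Measurable rep :=
  measurable_subtype_coe.comp (AddCircle.measurableEquivIco (1:ℝ) 0).measurable

lemma rep_nonneg (θ : UnitAddCircle) : 0 ≤ rep θ := (AddCircle.measurableEquivIco (1:ℝ) 0 θ).2.1

lemma rep_lt_one (θ : UnitAddCircle) : rep θ < 1 := by
  have := (AddCircle.measurableEquivIco (1:ℝ) 0 θ).2.2
  unfold rep
  linarith

lemma rep_coe (x : ℝ) : rep (x : UnitAddCircle) = Int.fract x := by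
  have := AddCircle.coe_equivIco_mk_apply (1:ℝ) x
  simpa [rep, AddCircle.measurableEquivIco] using this

lemma coe_rep (θ : UnitAddCircle) : ((rep θ : ℝ) : UnitAddCircle) = θ :=
  AddCircle.coe_equivIco

lemma rep_add (θ : UnitAddCircle) (s : ℝ) :
    rep (θ + (s : UnitAddCircle)) = rep θ + s - ⌊rep θ + s⌋ := by
  have h : θ + (s : UnitAddCircle) = ((rep θ + s : ℝ) : UnitAddCircle) := by
    rw [AddCircle.coe_add, coe_rep]
  rw [h, rep_coe]
  rfl

/-- Time `s` map of the flow. -/
noncomputable def flowFun (s : ℝ) (p : X) : X :=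
  (p.1 + (s : UnitAddCircle), fun i => p.2 (i + ⌊rep p.1 + s⌋))

lemma flowFun_zero (p : X) : flowFun 0 p = p := by
  have h : ⌊rep p.1⌋ = 0 := by
    rw [Int.floor_eq_zero_iff]
    exact ⟨rep_nonneg _, rep_lt_one _⟩
  ext1
  · simp [flowFun]
  · funext i
    simp [flowFun, h]

lemma flowFun_add (s t : ℝ) (p : X) : flowFun (s + t) p = flowFun s (flowFun t p) := by
  ext1
  · simp only [flowFun, AddCircle.coe_add]
    abel
  · funext i
    simp only [flowFun]
    rw [rep_add]
    have : rep p.1 + t - (⌊rep p.1 + t⌋ : ℝ) + s = (rep p.1 + (s + t)) - (⌊rep p.1 + t⌋ : ℤ) := by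
      ring
    rw [this, Int.floor_sub_intCast]
    ring_nf

lemma measurable_flowFun (s : ℝ) : Measurable (flowFun s) := by
  unfold flowFun
  refine Measurable.prodMk ?_ ?_
  · exact measurable_fst.add_const _
  · refine measurable_pi_lambda _ fun i => ?_
    have h1 : Measurable fun p : X => i + ⌊rep p.1 + s⌋ :=
      (((measurable_rep.comp measurable_fst).add_const s).floor).const_add i
    have h2 : Measurable fun q : ℤ × Y => q.2 q.1 := by
      refine measurable_from_prod_countable_right fun j => ?_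
      exact measurable_pi_apply j
    exact h2.comp (h1.prodMk measurable_snd)

/-- Time `s` map of the flow, as a measurable equivalence. -/
noncomputable def flow (s : ℝ) : X ≃ᵐ X where
  toFun := flowFun s
  invFun := flowFun (-s)
  left_inv p := by rw [← flowFun_add]; simp [flowFun_zero]
  right_inv p := by rw [← flowFun_add]; simp [flowFun_zero]
  measurable_toFun := measurable_flowFun s
  measurable_invFun := measurable_flowFun (-s)

/-- fair coin -/
noncomputable def coin : Measure Bool :=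
  (2:ENNReal)⁻¹ • Measure.dirac true + (2:ENNReal)⁻¹ • Measure.dirac false

instance : IsProbabilityMeasure coin := by
  constructor
  simp [coin, ENNReal.inv_two_add_inv_two]

lemma coin_not : coin.map not = coin := by
  have hm : Measurable not := measurable_from_top
  rw [coin, Measure.map_add _ _ hm, Measure.map_smul, Measure.map_smul,
    Measure.map_dirac' hm, Measure.map_dirac' hm, add_comm]
  rfl

/-- i.i.d. fair labels -/
noncomputable def labels : Measure Y := Measure.infinitePi fun _ : ℤ => coin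

instance : IsProbabilityMeasure labels := by unfold labels; infer_instance

lemma labels_shift (k : ℤ) : labels.map (fun (c : Y) (i : ℤ) => c (i + k)) = labels := by
  have h := Measure.infinitePi_map_piCongrLeft (X := fun _ : ℤ => Bool) (fun _ : ℤ => coin)
    (Equiv.subRight k)
  have h2 : (MeasurableEquiv.piCongrLeft (fun _ : ℤ => Bool) (Equiv.subRight k) : Y → Y) =
      fun (c : Y) (i : ℤ) => c (i + k) := by
    funext c i
    have h3 := Equiv.piCongrLeft_apply_apply (P := fun _ : ℤ => Bool) (Equiv.subRight k) c (i + k)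
    rw [MeasurableEquiv.coe_piCongrLeft]
    simpa using h3
  rw [h2] at h
  exact h

lemma labels_flip (w : ℤ → Bool) :
    labels.map (fun (c : Y) (i : ℤ) => if w i then !(c i) else c i) = labels := by
  have hm : ∀ i : ℤ, Measurable fun b : Bool => if w i then !b else b :=
    fun i => measurable_from_top
  have h := Measure.infinitePi_map_pi (μ := fun _ : ℤ => coin)
    (f := fun (i : ℤ) (b : Bool) => if w i then !b else b) hm
  have h2 : (fun i : ℤ => coin.map fun b : Bool => if w i then !b else b) = fun _ => coin := by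
    funext i
    by_cases hw : w i
    · simp only [hw, if_true]
      exact coin_not
    · simp [hw]
  rw [labels, h]
  congr 1

/-- the invariant measure -/
noncomputable def μ₀ : Measure X := (volume : Measure UnitAddCircle).prod labels

instance : IsProbabilityMeasure (volume : Measure UnitAddCircle) := ⟨UnitAddCircle.measure_univ⟩

instance : IsProbabilityMeasure μ₀ := by unfold μ₀; infer_instance

lemma nullSingleton : NullSingletonClass μ₀ := by
  refine ⟨fun x => ?_⟩
  have h1 : ({x} : Set X) ⊆ {x.1} ×ˢ Set.univ := by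
    rintro y rfl
    simp
  refine measure_mono_null h1 ?_
  rw [μ₀, Measure.prod_prod]
  have h2 : volume ({x.1} : Set UnitAddCircle) = 0 := by
    have := AddCircle.volume_closedBall (T := (1:ℝ)) (x := x.1) 0
    simpa using this
  rw [h2, zero_mul]

lemma flow_mp (s : ℝ) : MeasurePreserving (flow s) μ₀ μ₀ := by
  have h1 : MeasurePreserving (fun θ : UnitAddCircle => θ + (s : UnitAddCircle)) volume volume :=
    measurePreserving_add_right _ _
  have h2 := h1.skew_product (μc := labels) (μd := labels)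
    (g := fun (θ : UnitAddCircle) (c : Y) (i : ℤ) => c (i + ⌊rep θ + s⌋))
    (measurable_flowFun s).snd
    (Filter.Eventually.of_forall fun θ => labels_shift _)
  exact h2

/-- flip all the labels except the one at `0` -/
def flipFun (p : X) : X := (p.1, fun i => if (decide (i ≠ 0)) then !(p.2 i) else p.2 i)

lemma flipFun_flipFun (p : X) : flipFun (flipFun p) = p := by
  ext1
  · rfl
  · funext i
    by_cases hi : i = 0 <;> simp [flipFun, hi]

lemma flipFun_mp : MeasurePreserving flipFun μ₀ μ₀ := by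
  have hm : Measurable (fun (c : Y) (i : ℤ) => if (decide (i ≠ 0)) then !(c i) else c i) := by
    refine measurable_pi_lambda _ fun i => ?_
    by_cases hi : i = 0
    · simp only [hi, ne_eq, not_true_eq_false, decide_false, Bool.false_eq_true, if_false]
      exact measurable_pi_apply _
    · simp only [hi, ne_eq, not_false_eq_true, decide_true, if_true]
      exact (measurable_from_top (f := not)).comp (measurable_pi_apply _)
  exact (MeasurePreserving.id (volume : Measure UnitAddCircle)).prod ⟨hm, labels_flip _⟩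

/-- the flip as a measurable equivalence -/
def flip : X ≃ᵐ X where
  toFun := flipFun
  invFun := flipFun
  left_inv := flipFun_flipFun
  right_inv := flipFun_flipFun
  measurable_toFun := flipFun_mp.measurable
  measurable_invFun := flipFun_mp.measurable

/-! ## The two actions -/

/-- time `log₁₆ n` -/
noncomputable def tm (n : ℕ) : ℝ := Real.logb 16 n

lemma tm_one : tm 1 = 0 := by simp [tm]

lemma tm_mul {m n : ℕ} (hm : 1 ≤ m) (hn : 1 ≤ n) : tm (m * n) = tm m + tm n := by
  unfold tm
  push_cast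
  rw [Real.logb_mul] <;> positivity

lemma tm_lt {k l : ℕ} (hk : 1 ≤ k) (hkl : k < l) : tm k < tm l := by
  unfold tm
  apply Real.logb_lt_logb (by norm_num) (by positivity) (by exact_mod_cast hkl)

lemma logb_two : Real.logb 16 2 = 1 / 4 := by
  rw [Real.logb_eq_iff_rpow_eq (by norm_num) (by norm_num) (by norm_num)]
  have : (16:ℝ) = 2 ^ (4:ℝ) := by norm_num
  rw [this, ← Real.rpow_mul (by norm_num)]
  norm_num

lemma tm_lt_add {k l : ℕ} (hk : 1 ≤ k) (hl : 1 ≤ l) (hkl : l < 2 * k) : tm l < tm k + 1 / 4 := by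
  have h := tm_lt hl hkl
  rw [tm_mul (by norm_num) hk] at h
  have h2 : tm 2 = 1 / 4 := by unfold tm; exact_mod_cast logb_two
  linarith

lemma one_le_tm {k : ℕ} (hk : 16 ≤ k) : 1 ≤ tm k := by
  have h16 : tm 16 = 1 := by
    unfold tm
    push_cast
    exact Real.logb_self_eq_one (by norm_num)
  rcases hk.eq_or_lt with h | h
  · rw [← h, h16]
  · have := tm_lt (by norm_num) h
    linarith

/-- first action -/
noncomputable def S (n : ℕ) : X ≃ᵐ X := flow (tm n)

/-- second action, conjugate to the first one -/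
noncomputable def R (n : ℕ) : X ≃ᵐ X := flip.trans ((flow (tm n)).trans flip)

lemma S_apply (n : ℕ) (x : X) : S n x = flowFun (tm n) x := rfl

lemma R_apply (n : ℕ) (x : X) : R n x = flipFun (flowFun (tm n) (flipFun x)) := rfl

lemma S_act : IsMultAction μ₀ S where
  one x := by rw [S_apply, tm_one, flowFun_zero]
  mul m n hm hn x := by simp only [S_apply, tm_mul hm hn, flowFun_add]
  mp n _ := flow_mp _

lemma R_act : IsMultAction μ₀ R where
  one x := by rw [R_apply, tm_one, flowFun_zero, flipFun_flipFun]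
  mul m n hm hn x := by simp only [R_apply, tm_mul hm hn, flowFun_add, flipFun_flipFun]
  mp n _ := by
    have := (flipFun_mp.comp (flow_mp (tm n))).comp flipFun_mp
    exact this

/-- the test set -/
def A : Set X := {p | rep p.1 < 1 / 4} ∩ {p | p.2 0 = true}

lemma measurableSet_A : MeasurableSet A := by
  refine MeasurableSet.inter ?_ ?_
  · exact measurableSet_lt (measurable_rep.comp measurable_fst) measurable_const
  · have h : Measurable fun p : X => p.2 0 := (measurable_pi_apply (0:ℤ)).comp measurable_snd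
    exact h (MeasurableSet.of_discrete (s := ({true} : Set Bool)))

lemma A_pos : 0 < μ₀ A := by
  have hA : A = {θ | rep θ < 1 / 4} ×ˢ {c : Y | c 0 = true} := by
    ext p
    simp [A, Set.mem_prod]
  rw [hA, μ₀, Measure.prod_prod]
  refine ENNReal.mul_pos (ne_of_gt ?_) (ne_of_gt ?_)
  · have hm : MeasurableSet {θ | rep θ < 1 / 4} := measurableSet_lt measurable_rep measurable_const
    rw [AddCircle.add_projection_respects_measure (1:ℝ) 0 hm]
    have hsub : Set.Ioc (0:ℝ) (1/8) ⊆
        (QuotientAddGroup.mk ⁻¹' {θ : UnitAddCircle | rep θ < 1 / 4} ∩ Set.Ioc (0:ℝ) (0 + 1)) := by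
      intro x hx
      refine ⟨?_, hx.1, by linarith [hx.2]⟩
      have : rep ((x : ℝ) : UnitAddCircle) < 1 / 4 := by
        rw [rep_coe, Int.fract_eq_self.mpr ⟨hx.1.le, by linarith [hx.2]⟩]
        linarith [hx.2]
      exact this
    refine lt_of_lt_of_le ?_ (measure_mono hsub)
    rw [Real.volume_Ioc]
    simp
  · have h1 : {c : Y | c 0 = true} = (fun c : Y => c 0) ⁻¹' {true} := by ext c; simp
    have h2 := (measurePreserving_eval_infinitePi (μ := fun _ : ℤ => coin) (0:ℤ)).measure_preimage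
      (s := ({true} : Set Bool)) (MeasurableSet.of_discrete).nullMeasurableSet
    rw [h1]
    change 0 < labels ((Function.eval (0:ℤ)) ⁻¹' {true})
    rw [labels, h2]
    simp [coin]

lemma flowFun_mem_A {s : ℝ} {x : X} (h : flowFun s x ∈ A) :
    rep x.1 + s - ⌊rep x.1 + s⌋ < 1 / 4 ∧ x.2 ⌊rep x.1 + s⌋ = true := by
  obtain ⟨h1, h2⟩ := h
  refine ⟨?_, ?_⟩
  · have : rep (x.1 + (s : UnitAddCircle)) < 1 / 4 := h1
    rwa [rep_add] at this
  · have : x.2 (0 + ⌊rep x.1 + s⌋) = true := h2
    rwa [zero_add] at this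

lemma flipFun_mem_A {x : X} (h : flipFun x ∈ A) : x ∈ A := by
  obtain ⟨h1, h2⟩ := h
  exact ⟨h1, by simpa [flipFun] using h2⟩

/-- The key disjointness. -/
lemma disj {k l : ℕ} (hk : 16 ≤ k) (hkl : k < l) (hl : l < 2 * k) :
    (S k) ⁻¹' A ∩ (R l) ⁻¹' A = ∅ := by
  rw [Set.eq_empty_iff_forall_notMem]
  rintro x ⟨hx1, hx2⟩
  have h1 : flowFun (tm k) x ∈ A := hx1
  have h2 : flowFun (tm l) (flipFun x) ∈ A := flipFun_mem_A hx2
  obtain ⟨a1, a2⟩ := flowFun_mem_A h1
  obtain ⟨b1, b2⟩ := flowFun_mem_A h2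
  have t1 : tm k < tm l := tm_lt (by omega) hkl
  have t2 : tm l < tm k + 1 / 4 := tm_lt_add (by omega) (by omega) hl
  have t3 : 1 ≤ tm k := one_le_tm hk
  have hr : rep (flipFun x).1 = rep x.1 := rfl
  rw [hr] at b1 b2
  have r0 := rep_nonneg x.1
  have e1 := Int.floor_le (rep x.1 + tm k)
  have e2 := Int.floor_le (rep x.1 + tm l)
  have hfl : ⌊rep x.1 + tm l⌋ = ⌊rep x.1 + tm k⌋ := by
    have u1 : (⌊rep x.1 + tm l⌋ : ℝ) < ⌊rep x.1 + tm k⌋ + 1 := by linarith
    have u2 : (⌊rep x.1 + tm k⌋ : ℝ) < ⌊rep x.1 + tm l⌋ + 1 := by linarith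
    have u1' : ⌊rep x.1 + tm l⌋ < ⌊rep x.1 + tm k⌋ + 1 := by exact_mod_cast u1
    have u2' : ⌊rep x.1 + tm k⌋ < ⌊rep x.1 + tm l⌋ + 1 := by exact_mod_cast u2
    omega
  have hne : ⌊rep x.1 + tm k⌋ ≠ 0 := by
    have : 1 ≤ ⌊rep x.1 + tm k⌋ := by
      rw [Int.le_floor]
      push_cast
      linarith
    omega
  rw [hfl] at b2
  simp [flipFun, hne, a2] at b2

lemma pattern_empty {ℓ : ℕ} (hℓ : 2 ≤ ℓ) {T : ℕ → ℕ → X ≃ᵐ X} (h1 : T 1 = S) (h2 : T 2 = R)
    {m n : ℕ} (hm : 1 ≤ m) (hn : 1 ≤ n) (hmn : 16 ≤ m + n) : pattern ℓ T A m n = ∅ := by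
  have hd := disj (k := m + n) (l := m + 2 * n) hmn (by omega) (by omega)
  rw [Set.eq_empty_iff_forall_notMem] at hd ⊢
  intro x hx
  apply hd x
  simp only [pattern, Set.mem_iInter, Finset.mem_range] at hx
  have e1 := hx 1 (by omega)
  have e2 := hx 2 (by omega)
  rw [h1, one_mul] at e1
  rw [h2] at e2
  exact ⟨e1, e2⟩

lemma avg_tendsto {ℓ : ℕ} (hℓ : 2 ≤ ℓ) {T : ℕ → ℕ → X ≃ᵐ X} (h1 : T 1 = S) (h2 : T 2 = R) :
    Tendsto (avg μ₀ ℓ T A) atTop (𝓝 0) := by
  have hb : ∀ N : ℕ, avg μ₀ ℓ T A N ≤ 256 / (N : ℝ) ^ 2 := by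
    intro N
    unfold avg
    refine div_le_div_of_nonneg_right ?_ (by positivity)
    have key : ∀ m ∈ Finset.Icc 1 N, ∀ n ∈ Finset.Icc 1 N, μ₀.real (pattern ℓ T A m n) ≤
        if (m < 16 ∧ n < 16) then 1 else 0 := by
      intro m hm n hn
      rw [Finset.mem_Icc] at hm hn
      split_ifs with hc
      · exact measureReal_le_one
      · rw [pattern_empty hℓ h1 h2 hm.1 hn.1 (by omega)]
        simp
    calc (∑ m ∈ Finset.Icc 1 N, ∑ n ∈ Finset.Icc 1 N, μ₀.real (pattern ℓ T A m n))
        ≤ ∑ m ∈ Finset.Icc 1 N, ∑ n ∈ Finset.Icc 1 N,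
            (if (m < 16 ∧ n < 16) then (1:ℝ) else 0) :=
          Finset.sum_le_sum fun m hm => Finset.sum_le_sum fun n hn => key m hm n hn
      _ = ∑ p ∈ Finset.Icc 1 N ×ˢ Finset.Icc 1 N, (if (p.1 < 16 ∧ p.2 < 16) then (1:ℝ) else 0) := by
          rw [Finset.sum_product]
      _ = (((Finset.Icc 1 N ×ˢ Finset.Icc 1 N).filter fun p : ℕ × ℕ =>
            p.1 < 16 ∧ p.2 < 16).card : ℝ) := by
          rw [Finset.sum_boole]
      _ ≤ ((Finset.range 16 ×ˢ Finset.range 16).card : ℝ) := by
          have : ((Finset.Icc 1 N ×ˢ Finset.Icc 1 N).filter fun p : ℕ × ℕ =>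
            p.1 < 16 ∧ p.2 < 16) ⊆ Finset.range 16 ×ˢ Finset.range 16 := by
            intro p hp
            simp only [Finset.mem_filter] at hp
            simp only [Finset.mem_product, Finset.mem_range]
            exact hp.2
          exact_mod_cast Finset.card_le_card this
      _ = 256 := by norm_num
  have hnn : ∀ N : ℕ, 0 ≤ avg μ₀ ℓ T A N := by
    intro N
    unfold avg
    positivity
  have hlim : Tendsto (fun N : ℕ => 256 / (N : ℝ) ^ 2) atTop (𝓝 0) := by
    have h3 : Tendsto (fun N : ℕ => (N : ℝ) ^ 2) atTop atTop :=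
      (tendsto_pow_atTop (by norm_num)).comp tendsto_natCast_atTop_atTop
    exact h3.const_div_atTop 256
  exact squeeze_zero hnn hb hlim

/-- **Q2 of MP_0a3467_an fails for every `ℓ ≥ 2`.**  There are two multiplicative actions `S`, `R`
on an atomless Lebesgue probability space, conjugate by a measure preserving involution `φ`, and a
set `A` of positive measure, such that

* `S_{m+n}⁻¹ A ∩ R_{m+2n}⁻¹ A = ∅` for all `m, n ≥ 1` with `m + n ≥ 16`;
* for every `ℓ ≥ 2` and every family of multiplicative actions `T_{0,·}, …, T_{ℓ,·}` with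
  `T_{1,·} = S`, `T_{2,·} = R`, the averages of Q2 tend to `0`; in particular their `liminf` is `0`.
-/
theorem result :
    ∃ (X : Type) (_ : MeasurableSpace X) (_ : StandardBorelSpace X) (μ : Measure X)
      (_ : IsProbabilityMeasure μ) (_ : NullSingletonClass μ)
      (S R : ℕ → X ≃ᵐ X) (φ : X ≃ᵐ X) (A : Set X),
      IsMultAction μ S ∧ IsMultAction μ R ∧
      MeasurePreserving φ μ μ ∧ (∀ x, φ (φ x) = x) ∧ (∀ n x, R n x = φ (S n (φ x))) ∧
      MeasurableSet A ∧ 0 < μ A ∧
      (∀ m n : ℕ, 1 ≤ m → 1 ≤ n → 16 ≤ m + n →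
        (S (m + n)) ⁻¹' A ∩ (R (m + 2 * n)) ⁻¹' A = ∅) ∧
      (∀ ℓ : ℕ, 2 ≤ ℓ →
        (∃ T : ℕ → ℕ → X ≃ᵐ X, T 1 = S ∧ T 2 = R ∧ ∀ j, IsMultAction μ (T j)) ∧
        ∀ T : ℕ → ℕ → X ≃ᵐ X, T 1 = S → T 2 = R → (∀ j ≤ ℓ, IsMultAction μ (T j)) →
          Tendsto (avg μ ℓ T A) atTop (𝓝 0) ∧ liminf (avg μ ℓ T A) atTop = 0) := by
  refine ⟨X, inferInstance, inferInstance, μ₀, inferInstance, nullSingleton, S, R, flip, A,
    S_act, R_act, flipFun_mp, flipFun_flipFun, fun n x => rfl, measurableSet_A, A_pos, ?_, ?_⟩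
  · intro m n hm hn hmn
    exact disj hmn (by omega) (by omega)
  · intro ℓ hℓ
    refine ⟨⟨fun j => if j = 2 then R else S, by simp, by simp, fun j => ?_⟩, ?_⟩
    · by_cases hj : j = 2
      · simpa [hj] using R_act
      · simpa [hj] using S_act
    · intro T h1 h2 _
      have := avg_tendsto hℓ h1 h2
      exact ⟨this, this.liminf_eq⟩

end Pool.Agent.Results.MP_0a3467_an.NonCommutingFailure
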